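import Pool.Agent.T9h44.NK.SpecA

/-!
# Project NK, piece VF: the vertex figure
-/

set_option autoImplicit false

open Set
open scoped RealInnerProductSpace

namespace Pool.Agent.T9h69.NK

open Pool.Agent.T9h98.DC Pool.Agent.T9h44.NK

variable {d : ℕ} {P F G : Set (E (d + 1))} {v n : E (d + 1)} {ι : E d →ₗᵢ[ℝ] E (d + 1)}

/-- the map onto the orthogonal complement -/
theorem ort_surj (hn : n ≠ 0) (ho : Ort n ι) (y : E (d + 1)) (hy : ⟪n, y⟫ = 0) :
    ∃ x, ι x = y := by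
  have h1 : LinearMap.range ι.toLinearMap ≤ (ℝ ∙ n)ᗮ := by
    rintro _ ⟨x, rfl⟩
    rw [Submodule.mem_orthogonal_singleton_iff_inner_right]
    exact ho x
  have h2 : Module.finrank ℝ (LinearMap.range ι.toLinearMap) = d := by
    rw [LinearMap.finrank_range_of_inj ι.injective]
    simp
  have h3 : Module.finrank ℝ (ℝ ∙ n)ᗮ = d := by
    have : Fact (Module.finrank ℝ (E (d + 1)) = d + 1) := ⟨by simp⟩
    exact Submodule.finrank_orthogonal_span_singleton hn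
  have h4 : LinearMap.range ι.toLinearMap = (ℝ ∙ n)ᗮ :=
    Submodule.eq_of_le_of_finrank_eq h1 (by rw [h2, h3])
  have h5 : y ∈ (ℝ ∙ n)ᗮ := by
    rw [Submodule.mem_orthogonal_singleton_iff_inner_right]
    exact hy
  rw [← h4] at h5
  obtain ⟨x, hx⟩ := h5
  exact ⟨x, hx⟩

/-- coordinates of a point on the positive side -/
theorem coord (hn : n ≠ 0) (ho : Ort n ι) (y : E (d + 1)) (hy : 0 < ⟪y - v, n⟫) :
    ∃ (t : ℝ) (x : E d), 0 < t ∧ y = v + t • (n + ι x) := by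
  have hnn : 0 < ⟪n, n⟫ := real_inner_self_pos.2 hn
  have ht : 0 < ⟪y - v, n⟫ / ⟪n, n⟫ := div_pos hy hnn
  obtain ⟨z, hz⟩ := ort_surj hn ho ((⟪y - v, n⟫ / ⟪n, n⟫)⁻¹ • (y - v) - n) (by
    rw [inner_sub_right, inner_smul_right, real_inner_comm (y - v) n, inv_div,
      div_mul_cancel₀ _ hy.ne', sub_self])
  refine ⟨_, z, ht, ?_⟩
  rw [hz, add_sub_cancel, smul_smul, mul_inv_cancel₀ ht.ne', one_smul, add_sub_cancel]

theorem face_sub (hF : IsFace P F) : F ⊆ P := hF.2.subset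

/-- a face is given by a functional -/
theorem face_fun (hF : IsFace P F) (hv : v ∈ F) :
    ∃ l : E (d + 1) →L[ℝ] ℝ, (∀ y ∈ P, l y ≤ l v) ∧ ∀ y, y ∈ F ↔ y ∈ P ∧ l y = l v := by
  obtain ⟨l, hl⟩ := hF.2 hF.1
  have h1 : ∀ y ∈ P, l y ≤ l v := by
    have := hl ▸ hv
    exact this.2
  refine ⟨l, h1, fun y => ?_⟩
  rw [hl]
  constructor
  · rintro ⟨h2, h3⟩
    exact ⟨h2, le_antisymm (h1 y h2) (h3 v (face_sub hF hv))⟩
  · rintro ⟨h2, h3⟩
    exact ⟨h2, fun z hz => h3 ▸ h1 z hz⟩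

theorem fig_mem_coord (hs : Sup P v n) (hn : n ≠ 0) (ho : Ort n ι) {y : E (d + 1)} (hy : y ∈ P)
    (hyv : y ≠ v) : ∃ (t : ℝ) (x : E d), 0 < t ∧ y = v + t • (n + ι x) :=
  coord hn ho y (hs y hy hyv)

/-- conjunct 4 -/
theorem fig_le (hs : Sup P v n) (hn : n ≠ 0) (ho : Ort n ι) (hF : IsFace P F) (hG : IsFace P G)
    (hvG : v ∈ G) (h : fig v n ι F ⊆ fig v n ι G) : F ⊆ G := by
  intro y hy
  by_cases hyv : y = v
  · rw [hyv]
    exact hvG
  obtain ⟨t, x, ht, hx⟩ := fig_mem_coord hs hn ho (face_sub hF hy) hyv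
  obtain ⟨t', ht', hx'⟩ := h (show x ∈ fig v n ι F from ⟨t, ht, hx ▸ hy⟩)
  obtain ⟨l, h1, h2⟩ := face_fun hG hvG
  have h3 := ((h2 _).1 hx').2
  rw [map_add, map_smul, smul_eq_mul, add_eq_left] at h3
  have h4 : l (n + ι x) = 0 := (mul_eq_zero.1 h3).resolve_left ht'.ne'
  refine (h2 y).2 ⟨face_sub hF hy, ?_⟩
  rw [hx, map_add, map_smul, h4, smul_zero, add_zero]

/-- the figure of a face different from the vertex is nonempty -/
theorem fig_ne (hs : Sup P v n) (hn : n ≠ 0) (ho : Ort n ι) (hF : IsFace P F) (hvF : v ∈ F)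
    (hne : F ≠ {v}) : (fig v n ι F).Nonempty := by
  have h1 : ∃ y ∈ F, y ≠ v := by
    by_contra hcon
    push Not at hcon
    exact hne (Set.eq_singleton_iff_unique_mem.2 ⟨hvF, hcon⟩)
  obtain ⟨y, hy, hyv⟩ := h1
  obtain ⟨t, x, ht, hx⟩ := fig_mem_coord hs hn ho (face_sub hF hy) hyv
  exact ⟨x, t, ht, hx ▸ hy⟩

/-- dimension of the figure -/
theorem fig_dim (hs : Sup P v n) (hn : n ≠ 0) (ho : Ort n ι) (hF : IsFace P F) (hvF : v ∈ F)
    (hne : F ≠ {v}) : dm (fig v n ι F) + 1 = dm F := by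
  obtain ⟨x₀, hx₀⟩ := fig_ne hs hn ho hF hvF hne
  have hnn : 0 < ⟪n, n⟫ := real_inner_self_pos.2 hn
  have hmem : ∀ x ∈ fig v n ι F, n + ι x ∈ vectorSpan ℝ F := by
    rintro x ⟨t, ht, hx⟩
    have h1 := vsub_mem_vectorSpan ℝ hx hvF
    rw [vsub_eq_sub, add_sub_cancel_left] at h1
    have h2 := Submodule.smul_mem _ t⁻¹ h1
    rwa [smul_smul, inv_mul_cancel₀ ht.ne', one_smul] at h2
  have h1 : vectorSpan ℝ F = (ℝ ∙ (n + ι x₀)) ⊔ (vectorSpan ℝ (fig v n ι F)).map ι.toLinearMap := by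
    apply le_antisymm
    · rw [vectorSpan_eq_span_vsub_set_right ℝ hvF, Submodule.span_le]
      rintro _ ⟨y, hy, rfl⟩
      by_cases hyv : y = v
      · simp [hyv]
      obtain ⟨t, x, ht, hx⟩ := fig_mem_coord hs hn ho (face_sub hF hy) hyv
      have hxF : x ∈ fig v n ι F := ⟨t, ht, hx ▸ hy⟩
      have h2 : y -ᵥ v = t • (n + ι x₀) + t • ι (x - x₀) := by
        rw [hx, vsub_eq_sub, add_sub_cancel_left, ← smul_add, map_sub]
        congr 1
        abel
      change y -ᵥ v ∈ _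
      rw [h2]
      refine Submodule.add_mem_sup (Submodule.smul_mem _ _ (Submodule.mem_span_singleton_self _))
        (Submodule.smul_mem _ _ ⟨x - x₀, vsub_mem_vectorSpan ℝ hxF hx₀, rfl⟩)
    · refine sup_le ?_ ?_
      · rw [Submodule.span_singleton_le_iff_mem]
        exact hmem x₀ hx₀
      · rw [vectorSpan_eq_span_vsub_set_right ℝ hx₀, Submodule.map_span, Submodule.span_le]
        rintro _ ⟨_, ⟨x, hx, rfl⟩, rfl⟩
        have h2 := Submodule.sub_mem _ (hmem x hx) (hmem x₀ hx₀)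
        have h3 : ι.toLinearMap (x -ᵥ x₀) = (n + ι x) - (n + ι x₀) := by
          change ι (x - x₀) = _
          rw [map_sub]
          abel
        change ι.toLinearMap (x -ᵥ x₀) ∈ _
        rw [h3]
        exact h2
  have h2 : (ℝ ∙ (n + ι x₀)) ⊓ (vectorSpan ℝ (fig v n ι F)).map ι.toLinearMap = ⊥ := by
    rw [eq_bot_iff]
    rintro z ⟨hz1, hz2⟩
    obtain ⟨c, rfl⟩ := Submodule.mem_span_singleton.1 hz1
    obtain ⟨w, -, hw⟩ := hz2
    have h3 : ⟪n, ι w⟫ = 0 := ho w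
    have h4 : ι w = c • (n + ι x₀) := hw
    rw [h4, inner_smul_right, inner_add_right, ho x₀, add_zero] at h3
    rcases mul_eq_zero.1 h3 with h5 | h5
    · simp [h5]
    · exact absurd h5 hnn.ne'
  have h3 : n + ι x₀ ≠ 0 := by
    intro h4
    have h5 : ⟪n, n + ι x₀⟫ = 0 := by rw [h4, inner_zero_right]
    rw [inner_add_right, ho x₀, add_zero] at h5
    exact hnn.ne' h5
  have h4 := Submodule.finrank_sup_add_finrank_inf_eq (ℝ ∙ (n + ι x₀))
    ((vectorSpan ℝ (fig v n ι F)).map ι.toLinearMap)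
  have h5 := (Submodule.equivMapOfInjective ι.toLinearMap ι.injective
    (vectorSpan ℝ (fig v n ι F))).finrank_eq
  rw [← h1, h2, finrank_bot, add_zero, finrank_span_singleton h3, ← h5] at h4
  change Module.finrank ℝ (vectorSpan ℝ (fig v n ι F)) + 1 = Module.finrank ℝ (vectorSpan ℝ F)
  omega

end Pool.Agent.T9h69.NK
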