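import Pool.Agent.T9h44.NK.SpecB

/-!
# Project NK, piece SCL: scaling
-/

set_option autoImplicit false

open Set
open scoped RealInnerProductSpace

namespace Pool.Agent.T9h69.NK

open Pool.Agent.T9h98.DC Pool.Agent.T9h44.NK

section

variable {d : ℕ}

/-- scaling -/
def sc (r : ℝ) (A : Set (E d)) : Set (E d) := (fun x => r • x) '' A

theorem sc_sc (r t : ℝ) (A : Set (E d)) : sc r (sc t A) = sc (r * t) A := by
  unfold sc
  rw [← image_comp]
  congr 1
  funext x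
  exact smul_smul r t x

theorem sc_one (A : Set (E d)) : sc 1 A = A := by
  unfold sc
  simp

theorem sc_inv {r : ℝ} (hr : r ≠ 0) (A : Set (E d)) : sc r⁻¹ (sc r A) = A := by
  rw [sc_sc, inv_mul_cancel₀ hr, sc_one]

theorem sc_inv' {r : ℝ} (hr : r ≠ 0) (A : Set (E d)) : sc r (sc r⁻¹ A) = A := by
  rw [sc_sc, mul_inv_cancel₀ hr, sc_one]

theorem mem_sc {r : ℝ} (hr : r ≠ 0) {A : Set (E d)} {x : E d} : x ∈ sc r A ↔ r⁻¹ • x ∈ A := by
  constructor
  · rintro ⟨y, hy, rfl⟩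
    change r⁻¹ • r • y ∈ A
    rwa [smul_smul, inv_mul_cancel₀ hr, one_smul]
  · intro h
    refine ⟨_, h, ?_⟩
    change r • r⁻¹ • x = x
    rw [smul_smul, mul_inv_cancel₀ hr, one_smul]

theorem sc_hull (r : ℝ) (A : Set (E d)) : sc r (convexHull ℝ A) = convexHull ℝ (sc r A) := by
  have h : IsLinearMap ℝ (fun x : E d => r • x) := by
    refine ⟨fun x y => smul_add r x y, fun c x => smul_comm r c x⟩
  exact h.image_convexHull A

theorem sc_poly {r : ℝ} (hr : r ≠ 0) {P : Set (E d)} (hP : IsPolytope P) : IsPolytope (sc r P) := by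
  obtain ⟨⟨s, hs⟩, hi⟩ := hP
  classical
  refine ⟨⟨s.image fun x => r • x, ?_⟩, ?_⟩
  · rw [hs, sc_hull, Finset.coe_image]
    rfl
  · have h1 := (Homeomorph.smulOfNeZero r hr).image_interior P
    have h2 : (Homeomorph.smulOfNeZero r hr) '' P = sc r P := rfl
    rw [← h2, ← h1]
    exact hi.image _

theorem sc_face {r : ℝ} (hr : r ≠ 0) {P F : Set (E d)} (hF : IsFace P F) :
    IsFace (sc r P) (sc r F) := by
  refine ⟨hF.1.image _, fun _ => ?_⟩
  obtain ⟨l, hl⟩ := hF.2 hF.1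
  refine ⟨r⁻¹ • l, ?_⟩
  ext x
  rw [mem_sc hr, hl]
  constructor
  · rintro ⟨h1, h2⟩
    refine ⟨(mem_sc hr).2 h1, fun y hy => ?_⟩
    have := h2 _ ((mem_sc hr).1 hy)
    rwa [map_smul, map_smul] at this
  · rintro ⟨h1, h2⟩
    refine ⟨(mem_sc hr).1 h1, fun y hy => ?_⟩
    have := h2 (r • y) ⟨y, hy, rfl⟩
    change r⁻¹ • l (r • y) ≤ r⁻¹ • l x at this
    rwa [← map_smul, ← map_smul, smul_smul, inv_mul_cancel₀ hr, one_smul] at this

theorem sc_dm {r : ℝ} (hr : r ≠ 0) (F : Set (E d)) : dm (sc r F) = dm F := by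
  have h1 := AffineMap.map_vectorSpan
    ((LinearEquiv.smulOfNeZero ℝ (E d) r hr).toLinearMap.toAffineMap) (s := F)
  have h2 : ((LinearEquiv.smulOfNeZero ℝ (E d) r hr).toLinearMap.toAffineMap) '' F = sc r F := rfl
  rw [h2] at h1
  change Module.finrank ℝ (vectorSpan ℝ (sc r F)) = Module.finrank ℝ (vectorSpan ℝ F)
  rw [← h1]
  exact LinearEquiv.finrank_map_eq (LinearEquiv.smulOfNeZero ℝ (E d) r hr) (vectorSpan ℝ F)

theorem sc_comm (r : ℝ) (h : E d ≃ₗᵢ[ℝ] E d) (A : Set (E d)) : h '' sc r A = sc r (h '' A) := by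
  unfold sc
  rw [← image_comp, ← image_comp]
  congr 1
  funext x
  exact h.map_smul r x

/-- scaling back of a chain -/
def scCh {r : ℝ} (hr : r ≠ 0) {P : Set (E d)} {j : ℕ} (Φ : Ch (sc r P) j) : Ch P j where
  face i := sc r⁻¹ (Φ.face i)
  isFace i := by
    have h := sc_face (inv_ne_zero hr) (Φ.isFace i)
    rwa [sc_inv hr] at h
  dim i := (sc_dm (inv_ne_zero hr) _).trans (Φ.dim i)
  mono := fun _ _ h => image_mono (Φ.mono h)

theorem sc_reg {r : ℝ} (hr : 0 < r) {P : Set (E d)} (hP : Reg P) : Reg (sc r P) := by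
  rcases hP with ⟨v, s, hs, h1, h2⟩ | ⟨c, ρ, b, hρ, h1⟩ | ⟨c, ρ, b, hρ, h1⟩
  · left
    refine ⟨fun i => r • v i, r * s, mul_pos hr hs, fun i j hij => ?_, ?_⟩
    · rw [dist_smul₀, h1 i j hij, Real.norm_of_nonneg hr.le]
    · rw [h2, sc_hull]
      congr 1
      unfold sc
      rw [← range_comp]
      rfl
  · right
    left
    refine ⟨r • c, r * ρ, b, mul_pos hr hρ, ?_⟩
    rw [h1, sc_hull]
    congr 1
    ext x
    rw [mem_sc hr.ne']
    constructor
    · rintro ⟨i, h | h⟩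
      · refine ⟨i, Or.inl ?_⟩
        rw [← smul_smul, ← smul_add, ← h, smul_smul, mul_inv_cancel₀ hr.ne', one_smul]
      · refine ⟨i, Or.inr ?_⟩
        rw [← smul_smul, ← smul_sub, ← h, smul_smul, mul_inv_cancel₀ hr.ne', one_smul]
    · rintro ⟨i, h | h⟩
      · refine ⟨i, Or.inl ?_⟩
        rw [h, ← smul_smul, ← smul_add, smul_smul, inv_mul_cancel₀ hr.ne', one_smul]
      · refine ⟨i, Or.inr ?_⟩
        rw [h, ← smul_smul, ← smul_sub, smul_smul, inv_mul_cancel₀ hr.ne', one_smul]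
  · right
    right
    refine ⟨r • c, r * ρ, b, mul_pos hr hρ, ?_⟩
    rw [h1]
    ext x
    rw [mem_sc hr.ne']
    refine forall_congr' fun i => ?_
    have h2 : x - r • c = r • (r⁻¹ • x - c) := by
      rw [smul_sub, smul_smul, mul_inv_cancel₀ hr.ne', one_smul]
    rw [h2, inner_smul_left, abs_mul]
    simp only [conj_trivial]
    rw [abs_of_pos hr]
    exact (mul_le_mul_iff_right₀ hr).symm

end

/-- **SCL** -/
theorem scl : S_SCL := by
  rintro d P H r hr hP hH P' rfl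
  have hr0 := hr.ne'
  change IsPolytope (sc r P) ∧ Pres H (sc r P) ∧ (∀ v, Vx (sc r P) v → Vx P (r⁻¹ • v)) ∧
    (∀ j, PT j H P → PT j H (sc r P)) ∧ (Reg (sc r P) → Reg P)
  refine ⟨sc_poly hr0 hP, ?_, ?_, ?_, ?_⟩
  · intro h hh
    rw [sc_comm, hH h hh]
  · intro v hv
    have h1 := sc_face (inv_ne_zero hr0) hv
    rw [sc_inv hr0] at h1
    have h2 : sc r⁻¹ {v} = {r⁻¹ • v} := image_singleton
    rw [h2] at h1
    exact h1
  · intro j hj Φ Ψ
    obtain ⟨h, hh, h1⟩ := hj (scCh hr0 Φ) (scCh hr0 Ψ)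
    refine ⟨h, hh, fun i => ?_⟩
    have h2 : h '' sc r⁻¹ (Φ.face i) = sc r⁻¹ (Ψ.face i) := h1 i
    rw [sc_comm] at h2
    rw [← sc_inv' hr0 (h '' Φ.face i), h2, sc_inv' hr0]
  · intro h
    have h1 := sc_reg (inv_pos.2 hr) h
    rwa [sc_inv hr0] at h1

end Pool.Agent.T9h69.NK
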