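import Pool.Agent.T9h44.NK.SpecC
import Pool.Agent.T9h73.NK.FF

/-!
# Project NK, piece FTO: the regular cross-polytope is flag-transitive
-/

set_option autoImplicit false

open Set
open scoped RealInnerProductSpace

namespace Pool.Agent.T9h69.NK.FTOx

open Pool.Agent.T9h98.DC Pool.Agent.T9h44.NK

variable {d : ℕ}

/-- the vertices of the cross-polytope -/
def VO (c : E d) (r : ℝ) (b : OrthonormalBasis (Fin d) ℝ (E d)) : Set (E d) :=
  {x | ∃ i, x = c + r • b i ∨ x = c - r • b i}

/-- the chosen vertices -/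
noncomputable def pt (c : E d) (r : ℝ) (b : OrthonormalBasis (Fin d) ℝ (E d)) (s : Fin d → ℝ)
    (j : Fin d) : E d := c + (r * s j) • b j

theorem VO_finite (c : E d) (r : ℝ) (b : OrthonormalBasis (Fin d) ℝ (E d)) : (VO c r b).Finite := by
  have h : VO c r b = range (fun i => c + r • b i) ∪ range (fun i => c - r • b i) := by
    ext x
    constructor
    · rintro ⟨i, rfl | rfl⟩
      · exact Or.inl ⟨i, rfl⟩
      · exact Or.inr ⟨i, rfl⟩
    · rintro (⟨i, rfl⟩ | ⟨i, rfl⟩)
      · exact ⟨i, Or.inl rfl⟩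
      · exact ⟨i, Or.inr rfl⟩
  rw [h]
  exact (finite_range _).union (finite_range _)

theorem pt_indep (c : E d) {r : ℝ} (hr : 0 < r) (b : OrthonormalBasis (Fin d) ℝ (E d))
    (s : Fin d → ℝ) (hs : ∀ j, s j = 1 ∨ s j = -1) : AffineIndependent ℝ (pt c r b s) := by
  have h1 : LinearIndependent ℝ (fun j => (r * s j) • b j) := by
    have h2 := b.toBasis.linearIndependent.units_smul
      (fun j => Units.mk0 (r * s j) (by rcases hs j with h | h <;> rw [h] <;> simp [hr.ne']))
    have h3 : (fun j => (r * s j) • b j) = ((fun j => Units.mk0 (r * s j)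
        (by rcases hs j with h | h <;> rw [h] <;> simp [hr.ne'])) • ⇑b.toBasis) := by
      funext j
      simp [Units.smul_def]
    rw [h3]
    exact h2
  have h3 := h1.affineIndependent
  have h4 := (affineIndependent_vadd (k := ℝ) (v := c) (p := fun j => (r * s j) • b j)).2 h3
  exact h4

/-- a proper face does not contain opposite vertices -/
theorem not_both {c : E d} {r : ℝ} {b : OrthonormalBasis (Fin d) ℝ (E d)}
    {F : Set (E d)} (hF : IsFace (convexHull ℝ (VO c r b)) F) (j : Fin d)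
    (h1 : c + r • b j ∈ F) (h2 : c - r • b j ∈ F) : ∀ i, c + r • b i ∈ F ∧ c - r • b i ∈ F := by
  obtain ⟨l, hl⟩ := hF.2 hF.1
  rw [hl] at h1 h2 ⊢
  have hp : ∀ i, c + r • b i ∈ convexHull ℝ (VO c r b) := fun i =>
    subset_convexHull ℝ _ ⟨i, Or.inl rfl⟩
  have hm : ∀ i, c - r • b i ∈ convexHull ℝ (VO c r b) := fun i =>
    subset_convexHull ℝ _ ⟨i, Or.inr rfl⟩
  have e1 := h1.2 _ (hm j)
  have e2 := h2.2 _ (hp j)
  have hl0 : r * l (b j) = 0 := by
    rw [map_sub, map_add, map_smul, smul_eq_mul] at e1 e2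
    linarith
  have hz : ∀ i, r * l (b i) = 0 := by
    intro i
    have e3 := h1.2 _ (hp i)
    have e4 := h1.2 _ (hm i)
    rw [map_add, map_smul, smul_eq_mul] at e3
    rw [map_sub, map_smul, smul_eq_mul] at e4
    rw [map_add, map_smul, smul_eq_mul] at e3 e4
    linarith
  intro i
  have hi := hz i
  refine ⟨⟨hp i, fun y hy => ?_⟩, ⟨hm i, fun y hy => ?_⟩⟩
  · have := h1.2 y hy
    rw [map_add, map_smul, smul_eq_mul] at this ⊢
    linarith
  · have := h1.2 y hy
    rw [map_add, map_smul, smul_eq_mul] at this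
    rw [map_sub, map_smul, smul_eq_mul]
    linarith


theorem dm_hull (A : Set (E d)) : dm (convexHull ℝ A) = dm A := by
  change Module.finrank ℝ (vectorSpan ℝ (convexHull ℝ A)) = Module.finrank ℝ (vectorSpan ℝ A)
  rw [← direction_affineSpan, affineSpan_convexHull, direction_affineSpan]

theorem not_both' {c : E d} {r : ℝ} (hr : 0 < r) {b : OrthonormalBasis (Fin d) ℝ (E d)}
    {F : Set (E d)} (hF : IsFace (convexHull ℝ (VO c r b)) F) (hd : dm F < d) (j : Fin d)
    (h1 : c + r • b j ∈ F) (h2 : c - r • b j ∈ F) : False := by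
  have h3 := not_both hF j h1 h2
  have h4 : ∀ i, b i ∈ vectorSpan ℝ F := by
    intro i
    have h5 := vsub_mem_vectorSpan ℝ (h3 i).1 (h3 i).2
    have h6 : (c + r • b i) -ᵥ (c - r • b i) = (2 * r) • b i := by
      rw [vsub_eq_sub, mul_smul, two_smul]
      abel
    rw [h6] at h5
    have h7 := Submodule.smul_mem _ (2 * r)⁻¹ h5
    rwa [smul_smul, inv_mul_cancel₀ (by positivity), one_smul] at h7
  have h5 : vectorSpan ℝ F = ⊤ := by
    rw [eq_top_iff, ← b.toBasis.span_eq, Submodule.span_le]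
    rintro _ ⟨i, rfl⟩
    rw [b.coe_toBasis]
    exact h4 i
  change Module.finrank ℝ (vectorSpan ℝ F) < d at hd
  rw [h5, finrank_top] at hd
  simp at hd

theorem pt_mem (c : E d) (r : ℝ) (b : OrthonormalBasis (Fin d) ℝ (E d)) {s : Fin d → ℝ}
    (hs : ∀ j, s j = 1 ∨ s j = -1) (j : Fin d) : pt c r b s j ∈ VO c r b := by
  rcases hs j with h | h
  · exact ⟨j, Or.inl (by unfold pt; rw [h, mul_one])⟩
  · exact ⟨j, Or.inr (by unfold pt; rw [h, mul_neg, mul_one, neg_smul, sub_eq_add_neg])⟩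

/-- the data of a flag -/
theorem flag_data {c : E d} {r : ℝ} (hr : 0 < r) {b : OrthonormalBasis (Fin d) ℝ (E d)}
    (Φ : Flag (convexHull ℝ (VO c r b))) : ∃ (s : Fin d → ℝ) (I : Fin d → Finset (Fin d)),
      (∀ j, s j = 1 ∨ s j = -1) ∧ Monotone I ∧ (∀ i, (I i).card = i + 1) ∧
      ∀ i, Φ.face i = convexHull ℝ (pt c r b s '' (I i)) := by
  classical
  rcases Nat.eq_zero_or_pos d with h0 | hd
  · subst h0
    exact ⟨fun _ => 1, fun _ => ∅, fun j => Or.inl rfl, fun i => i.elim0, fun i => i.elim0,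
      fun i => i.elim0⟩
  obtain ⟨k, hk⟩ : ∃ k : Fin d, ∀ i : Fin d, i ≤ k :=
    ⟨⟨d - 1, by omega⟩, fun i => Fin.mk_le_mk.2 (by omega)⟩
  have hdim : dm (Φ.face k) < d := by
    have := Φ.dim k
    change Module.finrank ℝ (vectorSpan ℝ (Φ.face k)) < d
    rw [this]
    exact k.2
  obtain ⟨s, hsd⟩ : ∃ s : Fin d → ℝ, s = fun j => if c - r • b j ∈ Φ.face k then -1 else 1 :=
    ⟨_, rfl⟩
  have hs : ∀ j, s j = 1 ∨ s j = -1 := by
    intro j
    rw [hsd]
    by_cases h : c - r • b j ∈ Φ.face k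
    · right
      simp [h]
    · left
      simp [h]
  obtain ⟨I, hI⟩ : ∃ I : Fin d → Finset (Fin d),
      ∀ i j, j ∈ I i ↔ pt c r b s j ∈ Φ.face i :=
    ⟨fun i => Finset.univ.filter fun j => pt c r b s j ∈ Φ.face i, fun i j => by simp⟩
  have hVF : ∀ i, VO c r b ∩ Φ.face i = pt c r b s '' (I i) := by
    intro i
    ext x
    constructor
    · rintro ⟨⟨j, rfl | rfl⟩, hx⟩
      · have h1 := Φ.mono (hk i) hx
        have h2 : c - r • b j ∉ Φ.face k := fun h => not_both' hr (Φ.isFace k) hdim j h1 h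
        have h3 : pt c r b s j = c + r • b j := by
          unfold pt
          rw [hsd]
          simp [h2]
        exact ⟨j, (hI i j).2 (h3 ▸ hx), h3⟩
      · have h1 := Φ.mono (hk i) hx
        have h3 : pt c r b s j = c - r • b j := by
          have h4 : s j = -1 := by
            rw [hsd]
            exact if_pos h1
          unfold pt
          rw [h4, mul_neg, mul_one, neg_smul, sub_eq_add_neg]
        exact ⟨j, (hI i j).2 (h3 ▸ hx), h3⟩
    · rintro ⟨j, hj, rfl⟩
      exact ⟨pt_mem c r b hs j, (hI i j).1 hj⟩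
  have hface : ∀ i, Φ.face i = convexHull ℝ (pt c r b s '' (I i)) := by
    intro i
    rw [← hVF i]
    exact Pool.Agent.T9h73.NK.face_hull (VO_finite c r b) rfl (Φ.isFace i)
  refine ⟨s, I, hs, ?_, ?_, hface⟩
  · intro i i' hii j hj
    exact (hI i' j).2 (Φ.mono hii ((hI i j).1 hj))
  · intro i
    have hne : (I i).Nonempty := by
      by_contra hcon
      rw [Finset.not_nonempty_iff_eq_empty] at hcon
      have h1 := (Φ.isFace i).1
      rw [hface i, hcon] at h1
      simp at h1
    obtain ⟨m, hm⟩ : ∃ m, (I i).card = m + 1 := ⟨(I i).card - 1, by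
      have := hne.card_pos
      omega⟩
    have h1 := (pt_indep c hr b s hs).finrank_vectorSpan_image_finset hm
    have h2 : dm (Φ.face i) = i := Φ.dim i
    rw [hface i, dm_hull] at h2
    rw [Finset.coe_image] at h1
    rw [hm]
    have h3 : m = (i : ℕ) := by
      rw [← h1, ← h2]
    rw [h3]

/-- a signed permutation -/
theorem exists_signed (b : OrthonormalBasis (Fin d) ℝ (E d)) (τ : Equiv.Perm (Fin d))
    (u : Fin d → ℝ) (hu : ∀ j, u j = 1 ∨ u j = -1) :
    ∃ L : E d ≃ₗᵢ[ℝ] E d, ∀ j, L (b j) = u j • b (τ j) := by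
  have h1 : Orthonormal ℝ (fun j => u j • b (τ j)) := by
    rw [orthonormal_iff_ite]
    intro i j
    rw [inner_smul_left, inner_smul_right]
    have h2 := orthonormal_iff_ite.1 b.orthonormal (τ i) (τ j)
    rw [h2]
    simp only [conj_trivial, τ.injective.eq_iff]
    split_ifs with h
    · subst h
      rcases hu i with h | h <;> rw [h] <;> norm_num
    · simp
  have h2 : Orthonormal ℝ ((univ : Set (Fin d)).domRestrict (fun j => u j • b (τ j))) := by
    have := h1.comp (fun x : (univ : Set (Fin d)) => (x : Fin d)) Subtype.val_injective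
    exact this
  obtain ⟨b', hb'⟩ := h2.exists_orthonormalBasis_extension_of_card_eq (by simp)
  refine ⟨b.equiv b' (Equiv.refl _), fun j => ?_⟩
  rw [OrthonormalBasis.equiv_apply_basis, Equiv.refl_apply]
  exact hb' j (mem_univ j)

end Pool.Agent.T9h69.NK.FTOx

namespace Pool.Agent.T9h69.NK

open Pool.Agent.T9h98.DC Pool.Agent.T9h44.NK FTOx

/-- **FTO** -/
theorem fto (hperm : S_PERM) : S_FTO := by
  rintro d P ⟨c, r, b, hr, rfl⟩
  change FT (convexHull ℝ (VO c r b))
  intro Φ Ψ
  obtain ⟨s, I, hs, hI1, hI2, hI3⟩ := flag_data hr Φ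
  obtain ⟨t, J, ht, hJ1, hJ2, hJ3⟩ := flag_data hr Ψ
  obtain ⟨τ, hτ⟩ := hperm d d I J hI1 hJ1 hI2 hJ2
  obtain ⟨L, hL⟩ := exists_signed b τ (fun j => s j * t (τ j)) (by
    intro j
    rcases hs j with h1 | h1 <;> rcases ht (τ j) with h2 | h2 <;> rw [h1, h2] <;> norm_num)
  let g : E d ≃ᵃⁱ[ℝ] E d := (AffineIsometryEquiv.vaddConst ℝ c).symm.trans
    (L.toAffineIsometryEquiv.trans (AffineIsometryEquiv.vaddConst ℝ c))
  have hg : ∀ x, g x = L (x - c) + c := fun x => rfl
  have hgl : ∀ (z : ℝ) (j : Fin d), g (c + z • b j) = c + (z * (s j * t (τ j))) • b (τ j) := by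
    intro z j
    rw [hg, add_sub_cancel_left, map_smul, hL, smul_smul, add_comm]
  have hss : ∀ j, s j * s j = 1 := by
    intro j
    rcases hs j with h | h <;> rw [h] <;> norm_num
  have hgpt : ∀ j, g (pt c r b s j) = pt c r b t (τ j) := by
    intro j
    unfold pt
    rw [hgl]
    congr 2
    calc r * s j * (s j * t (τ j)) = r * (s j * s j) * t (τ j) := by ring
      _ = r * t (τ j) := by rw [hss, mul_one]
  have himg : ∀ A : Set (E d), g '' convexHull ℝ A = convexHull ℝ (g '' A) := fun A =>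
    AffineMap.image_convexHull g.toAffineEquiv.toAffineMap A
  have hV : g '' VO c r b = VO c r b := by
    have hsub : g '' VO c r b ⊆ VO c r b := by
      have hone : ∀ j, s j * t (τ j) = 1 ∨ s j * t (τ j) = -1 := by
        intro j
        rcases hs j with h1 | h1 <;> rcases ht (τ j) with h2 | h2 <;> rw [h1, h2] <;> norm_num
      rintro _ ⟨x, ⟨j, rfl | rfl⟩, rfl⟩
      · rw [hgl]
        rcases hone j with h | h
        · exact ⟨τ j, Or.inl (by rw [h, mul_one])⟩
        · exact ⟨τ j, Or.inr (by rw [h, mul_neg, mul_one, neg_smul, sub_eq_add_neg])⟩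
      · rw [sub_eq_add_neg, ← neg_smul, hgl]
        rcases hone j with h | h
        · exact ⟨τ j, Or.inr (by rw [h, mul_one, neg_smul, sub_eq_add_neg])⟩
        · exact ⟨τ j, Or.inl (by rw [h, mul_neg, mul_one, neg_neg])⟩
    refine Set.eq_of_subset_of_ncard_le hsub ?_ (VO_finite c r b)
    rw [Set.ncard_image_of_injective _ g.injective]
  refine ⟨g.toIsometryEquiv, ?_, fun i => ?_⟩
  · change g '' convexHull ℝ (VO c r b) = _
    rw [himg, hV]
  · change g '' Φ.face i = Ψ.face i
    rw [hI3, hJ3, himg, ← hτ i, Finset.coe_image, ← image_comp, ← image_comp]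
    congr 1
    refine image_congr fun j _ => ?_
    exact hgpt j

end Pool.Agent.T9h69.NK
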